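import Mathlib
import Pool.Agent.N889.SN.Horo

/-!
# Going down with one Hecke operator to a few thin strips
-/

set_option autoImplicit false

open Finset

namespace Pool.Agent.Helper10K1.SN

open Pool.Agent.N889.SN

variable {K : ℕ → ℝ} {U : ℂ → ℂ}

lemma div_nat_re (z : ℂ) (p : ℕ) : (z / p).re = z.re / p := by
  rw [show (p : ℂ) = ((p : ℝ) : ℂ) by norm_cast, Complex.div_ofReal_re]

lemma div_nat_im (z : ℂ) (p : ℕ) : (z / p).im = z.im / p := by
  rw [show (p : ℂ) = ((p : ℝ) : ℂ) by norm_cast, Complex.div_ofReal_im]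

/-- The value at `z` is controlled by the values at `(z + k) / p` and at the points
`((z + k) / p + b) / p`. -/
lemma down (hK : ∀ p, 0 ≤ K p) (hU : Per K U) {p : ℕ} (hp : p.Prime) (z : ℂ) (hz : 0 < z.im) (k : ℤ) :
    ∃ v : ℂ, ‖U z‖ ≤ (K p + p) * ‖U v‖ ∧
      ((v.im = z.im / p ∧ v.re = (z.re + k) / p) ∨
        (v.im = z.im / p / p ∧ ∃ b : ℕ, p * v.re = (z.re + k) / p + b)) := by
  have hp0 : (0 : ℝ) < p := by exact_mod_cast hp.pos
  have hpc : (p : ℂ) ≠ 0 := by exact_mod_cast hp.ne_zero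
  obtain ⟨c, hc, hr⟩ := hU.hecke p hp
  set v₀ : ℂ := (z + k) / p with hv₀
  have i0 : v₀.im = z.im / p := by
    rw [hv₀, div_nat_im]
    simp
  have r0 : v₀.re = (z.re + k) / p := by
    rw [hv₀, div_nat_re]
    simp
  have hv₀p : 0 < v₀.im := by rw [i0]; positivity
  have h0 := hr v₀ hv₀p
  have e1 : (p : ℂ) * v₀ = z + k := by rw [hv₀]; field_simp
  rw [e1, hU.int k hz] at h0
  have h1 : U z = c * U v₀ - ∑ b ∈ range p, U ((v₀ + b) / p) := by rw [← h0]; ring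
  by_contra hcon
  push Not at hcon
  have hKp := hK p
  have hC : 0 < K p + p := by positivity
  have a0 : (K p + p) * ‖U v₀‖ < ‖U z‖ := by
    by_contra hlt
    exact (hcon v₀ (not_lt.1 hlt)).1 i0 r0
  have ab : ∀ b ∈ range p, (K p + p) * ‖U ((v₀ + b) / p)‖ < ‖U z‖ := by
    intro b _
    by_contra hlt
    have h2 := (hcon ((v₀ + b) / p) (not_lt.1 hlt)).2
    refine h2 ?_ b ?_
    · rw [div_nat_im]
      simp [i0]
    · rw [div_nat_re]
      simp only [Complex.add_re, Complex.natCast_re, r0]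
      field_simp
  have h2 : ‖U z‖ ≤ K p * ‖U v₀‖ + ∑ b ∈ range p, ‖U ((v₀ + b) / p)‖ := by
    calc ‖U z‖ = ‖c * U v₀ - ∑ b ∈ range p, U ((v₀ + b) / p)‖ := by rw [← h1]
      _ ≤ ‖c * U v₀‖ + ‖∑ b ∈ range p, U ((v₀ + b) / p)‖ := norm_sub_le _ _
      _ ≤ _ := by
        rw [norm_mul]
        gcongr
        exact norm_sum_le _ _
  have hne : (range p).Nonempty := ⟨0, mem_range.2 hp.pos⟩
  have h3 : ∑ b ∈ range p, (K p + p) * ‖U ((v₀ + b) / p)‖ < ∑ b ∈ range p, ‖U z‖ :=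
    Finset.sum_lt_sum_of_nonempty hne ab
  rw [← Finset.mul_sum, Finset.sum_const, card_range, nsmul_eq_mul] at h3
  have h4 : K p * ((K p + p) * ‖U v₀‖) ≤ K p * ‖U z‖ := by gcongr
  have h5 : (K p + p) * ‖U z‖ ≤ (K p + p) * (K p * ‖U v₀‖ + ∑ b ∈ range p, ‖U ((v₀ + b) / p)‖) := by
    gcongr
  nlinarith

/-- From the heights above `H` down to the heights between `H` and `4 H`. -/
lemma window (hK : ∀ p, 0 ≤ K p) (hU : Per K U) (H : ℝ) (hH : 0 < H) (n : ℕ) :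
    ∀ z : ℂ, H ≤ z.im → z.im ≤ 4 * H * 2 ^ n →
      ∃ w : ℂ, H ≤ w.im ∧ w.im ≤ 4 * H ∧ ‖U z‖ ≤ (K 2 + 2) ^ n * ‖U w‖ := by
  have hK2 := hK 2
  induction n with
  | zero =>
    intro z h1 h2
    exact ⟨z, h1, by simpa using h2, by simp⟩
  | succ n ih =>
    intro z h1 h2
    rcases le_or_gt z.im (4 * H) with h | h
    · refine ⟨z, h1, h, ?_⟩
      have h3 : (1 : ℝ) ≤ (K 2 + 2) ^ (n + 1) := one_le_pow₀ (by linarith)
      nlinarith [norm_nonneg (U z)]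
    · obtain ⟨v, hv, hv1⟩ := down hK hU Nat.prime_two z (by linarith) 0
      have hv2 : H ≤ v.im ∧ v.im ≤ 4 * H * 2 ^ n := by
        rw [pow_succ] at h2
        have h5 : (0 : ℝ) < 4 * H * 2 ^ n := by positivity
        rcases hv1 with ⟨h3, -⟩ | ⟨h3, -⟩
        · rw [h3]
          push_cast
          constructor <;> linarith
        · rw [h3]
          push_cast
          constructor <;> linarith
      obtain ⟨w, hw1, hw2, hw⟩ := ih v hv2.1 hv2.2
      refine ⟨w, hw1, hw2, ?_⟩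
      calc ‖U z‖ ≤ (K 2 + (2 : ℕ)) * ‖U v‖ := hv
        _ ≤ (K 2 + (2 : ℕ)) * ((K 2 + 2) ^ n * ‖U w‖) := by gcongr
        _ = _ := by push_cast; ring

/-- `p` strips of width `1 / p ^ 2` at the heights from `Y` to `4 Y`, and one strip of width `1 / p`
at the heights from `p Y` to `4 p Y` -/
def Strips (p : ℕ) (Y ξ : ℝ) : Set ℂ :=
  {w : ℂ | |w.re| ≤ 1 / 2 ∧ Y ≤ w.im ∧ w.im ≤ 4 * Y ∧ ∃ m : ℤ, |p * w.re - ξ - m| ≤ 1 / (2 * p)} ∪
    {w : ℂ | |w.re| ≤ 1 / 2 ∧ p * Y ≤ w.im ∧ w.im ≤ 4 * (p * Y) ∧ ∃ m : ℤ, |w.re - ξ - m| ≤ 1 / (2 * p)}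

lemma toStrips (hK : ∀ p, 0 ≤ K p) (hU : Per K U) {p : ℕ} (hp : p.Prime) (Y ξ : ℝ) (hY : 0 < Y)
    (z : ℂ) (h1 : p * (p * Y) ≤ z.im) (h2 : z.im ≤ 4 * (p * (p * Y))) :
    ∃ w ∈ Strips p Y ξ, ‖U z‖ ≤ (K p + p) * ‖U w‖ := by
  have hp0 : (0 : ℝ) < p := by exact_mod_cast hp.pos
  have hz : 0 < z.im := lt_of_lt_of_le (by positivity) h1
  obtain ⟨v, hv, hv1⟩ := down hK hU hp z hz (round (p * ξ - z.re))
  have hk : |(z.re + (round (p * ξ - z.re) : ℤ)) / p - ξ| ≤ 1 / (2 * p) := by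
    have e : (z.re + (round (p * ξ - z.re) : ℤ)) / p - ξ =
        -((p * ξ - z.re - (round (p * ξ - z.re) : ℤ)) / p) := by field_simp; ring
    rw [e, abs_neg, abs_div, abs_of_pos hp0]
    have := abs_sub_round ((p : ℝ) * ξ - z.re)
    rw [div_le_div_iff₀ hp0 (by positivity)]
    nlinarith
  have hvpos : 0 < v.im := by
    rcases hv1 with ⟨h3, -⟩ | ⟨h3, -⟩ <;> rw [h3] <;> positivity
  have hUw : U (v + ((-round v.re : ℤ) : ℂ)) = U v := hU.int _ hvpos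
  have him : (v + ((-round v.re : ℤ) : ℂ)).im = v.im := by simp
  have hre : (v + ((-round v.re : ℤ) : ℂ)).re = v.re - round v.re := by simp [sub_eq_add_neg]
  refine ⟨v + ((-round v.re : ℤ) : ℂ), ?_, by rw [hUw]; exact hv⟩
  have habs : |(v + ((-round v.re : ℤ) : ℂ)).re| ≤ 1 / 2 := by rw [hre]; exact abs_sub_round v.re
  rcases hv1 with ⟨h3, h4⟩ | ⟨h3, b, h4⟩
  · right
    refine ⟨habs, ?_, ?_, -round v.re, ?_⟩
    · rw [him, h3, le_div_iff₀ hp0]
      linarith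
    · rw [him, h3, div_le_iff₀ hp0]
      linarith
    · rw [hre, h4]
      push_cast
      rw [← h4]
      rw [← h4] at hk
      have e : v.re - (round v.re : ℤ) - ξ - -(round v.re : ℝ) = v.re - ξ := by ring
      rw [e]
      exact hk
  · left
    refine ⟨habs, ?_, ?_, (b : ℤ) - p * round v.re, ?_⟩
    · rw [him, h3, le_div_iff₀ hp0, le_div_iff₀ hp0]
      linarith
    · rw [him, h3, div_le_iff₀ hp0, div_le_iff₀ hp0]
      linarith
    · rw [hre]
      push_cast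
      have e : (p : ℝ) * (v.re - (round v.re : ℝ)) - ξ - ((b : ℝ) - p * (round v.re : ℝ)) =
          (z.re + (round (p * ξ - z.re) : ℤ)) / p - ξ := by
        have : (p : ℝ) * v.re = (z.re + (round (p * ξ - z.re) : ℤ)) / p + b := h4
        linarith
      rw [e]
      exact hk

end Pool.Agent.Helper10K1.SN
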